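import Pool.Agent.D0H32.KP.Main

/-!
# Sato–Tate for almost all products of `k` pairwise independent abelian varieties

Let `B₀, B₁, B₂, …` be abelian varieties over `ℚ` of dimension `h` whose normalised Frobenius
eigenvalues are pairwise independent, with the distributions `ν₀, ν₁, ν₂, …`: for `i ≠ j` the averages
of `φ(Bᵢ) ψ(Bⱼ)` over the primes converge to `∫ φ dνᵢ ∫ ψ dνⱼ`. This is known for elliptic curves
without complex multiplication which are pairwise not isogenous over the algebraic closure (Harris;
Barnet-Lamb, Geraghty, Harris and Taylor): the generalised Sato–Tate conjecture is known for products
`E₁ × E₂`. It is not known for products of three such curves.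

Let `A` be an arbitrary abelian variety over `ℚ`, of dimension `g`, and `f` a continuous function of
the coefficients of the normalised `L`-polynomial. We consider the products
`A × B_{t₁} × ⋯ × B_{t_k}`. The theorem: for every `ε > 0` there is a number `N`, which depends only on
`f`, `ε` and the dimensions, such that for every finite set `J` of indices and all large `x` the average
of `f` over the good primes `p ≤ x` is within `ε` of the value which is predicted if the factors are
independent, for all but `N |J|^(k-1)` of the `|J|^k` tuples `t ∈ J^k`. So in every infinite family of
pairwise non-isogenous elliptic curves `100` percent of the products of `k` curves satisfy the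
Sato–Tate conjecture up to `ε`, and so do their products with any abelian variety `A` for which the
conjecture is known.

(1) For ALL `A`: the prediction is the average over the same primes of the integral of `f` at the
eigenvalues of `A` at `p` and at `y`, where `y` has the law `ν_{t₁} × ⋯ × ν_{t_k}`.

(2) If the eigenvalues of `A` have the limiting distribution `μ` along a sequence `x₀, x₁, … → ∞` (every
sequence has a subsequence with this property, and if the Sato–Tate conjecture holds for `A` one can
take all `x` and the distribution given by the Sato–Tate group): the prediction is the integral of `f`
with respect to `μ × ν_{t₁} × ⋯ × ν_{t_k}`. The lower densities of the sets of the `i` for which the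
average at `xᵢ` is not within `ε` of the predicted value add up to at most `N |J|^(k-1)`.

For `k = 1` and the products `A × B_{t₁} × ⋯ × B_{t_{k-1}}` instead of `A` one gets: for given
`t₁, …, t_{k-1}` there are at most `N` exceptional `t_k ∈ J`.

Proof. By the theorem of Stone and Weierstrass `f` is up to `ε / 8` a sum of products of functions of
the eigenvalues of the factors. A product of functions minus the product of their mean values is a sum
of `k` terms, each of which contains one centred function of one factor `B_{tᵢ}`, with a bounded weight
which does not depend on `tᵢ`. The centred functions of different `Bᵢ` are asymptotically orthogonal,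
so that by Bessel's inequality at most a bounded number of them correlate with a given weight.
-/

set_option autoImplicit false

namespace Pool.Agent.Results.MP_753a9c_nt.AlmostAllProducts

open Filter Topology MeasureTheory Pool.Agent.D0H32.ST Pool.Agent.D0H32.KP

/-- **Sato–Tate for almost all products of `k` pairwise independent abelian varieties.** -/
theorem result (g h k : ℕ) (f : (ℕ → ℂ) → ℝ) (hf : Continuous f) (ε : ℝ) (hε : 0 < ε) :
    ∃ N : ℕ, ∀ (B : ℕ → AbelianVariety h) (ν : ℕ → Measure (Fin (2 * h) → ℂ)),
      (∀ i, IsLaw (ν i)) → (∀ i j, i ≠ j → Independent (B i) (B j) (ν i) (ν j)) →
      ∀ (A : AbelianVariety g) (J : Finset ℕ),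
      -- (1) all `A`
      (∀ᶠ x in atTop,
        ((tuples k J).filter fun t => ε < |average f A B t x - expected f A B ν t x|).card ≤
          N * J.card ^ (k - 1)) ∧
      -- (2) the predicted values
      ∀ (μ : Measure (Fin (2 * g) → ℂ)) (x : ℕ → ℕ), Tendsto x atTop atTop → LawAlong A x μ →
        (∀ᶠ i in atTop, ((tuples k J).filter fun t =>
          ε < |average f A B t (x i) - ∫ a, ∫ y, val f a y ∂productLaw ν t ∂μ|).card ≤
            N * J.card ^ (k - 1)) ∧
        ∑ t ∈ tuples k J, lowerDensity (fun i =>
          ε < |average f A B t (x i) - ∫ a, ∫ y, val f a y ∂productLaw ν t ∂μ|) ≤
            N * (J.card : ℝ) ^ (k - 1) :=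
  main g h k hf hε

end Pool.Agent.Results.MP_753a9c_nt.AlmostAllProducts
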