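import Pool.Agent.D0H32.ST.Main

/-!
# The Sato–Tate prediction for `A ⊗ Λ`, for all but a bounded number of linearly disjoint fields

Let `A₁, …, A_s` be abelian varieties over `ℚ` and `Λ₁, …, Λ_s` lattices with a continuous action of the
absolute Galois group of `ℚ`. The abelian variety `B = ∏ₖ Aₖ ⊗ Λₖ` over `ℚ` has the Tate modules
`⨁ₖ V_ℓ(Aₖ) ⊗ Λₖ`, so that its normalised `L`-polynomial at the good primes is
`∏ₖ ∏ₗ det (1 - xₖₗ Λₖ(Frob_p) T)`, where the `xₖₗ` are the normalised Frobenius eigenvalues of `Aₖ`
(`tensorPoly`). Examples: the restrictions of scalars to `ℚ` of the `Aₖ` over number fields (`Λₖ` a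
permutation lattice), the quadratic twists (`Λₖ` of rank one), products such as `A × A'^{(d)}`.

If the field `L` generated by the `Λₖ` is linearly disjoint from the fields of definition of the
endomorphisms of the `Aₖ` then the Sato–Tate group of `B` is the image of `ST(A) × Gal(L/ℚ)`,
`A = ∏ₖ Aₖ`, and the conjecture says: the average over the primes of a continuous function `f` of the
coefficients of the normalised `L`-polynomials of `B` converges to the integral over `ST(A)` of the
mean value over `Gal(L/ℚ)`.

We consider `B_j = ∏ₖ Aₖ ⊗ Λ_{j,k}`, `j = 0, 1, 2, …`, for lattices of fixed ranks, with arbitrary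
groups and pairwise linearly disjoint fields `L_j`, and prove:

(1) for ALL `Aₖ`, without any assumption, for every finite set `J` of indices and all large `x`, the
average for `B_j` over the primes up to `x` differs by at most `ε` from the average over the same
primes of the mean value over `Gal(L_j/ℚ)`, for all `j ∈ J` with at most `N` exceptions;

(2) if the Frobenius eigenvalues of the `Aₖ` are equidistributed with respect to a measure (for
instance if the Sato–Tate conjecture is known for `A`, as for all elliptic curves), then for every
sequence `x₀, x₁, … → ∞` the lower densities of the sets of the `i` for which the average for `B_j` over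
the primes up to `x_i` differs by more than `ε` from the predicted value, add up to at most `N`. So
along every sequence, all but `N` of the `B_j` have averages within `ε` of the prediction infinitely
often, and all but `10 N` of them for `x_i` with `i` in a set of upper density at least `0.9`.

The number `N` depends only on `f`, `ε`, the dimensions of the `Aₖ` and the ranks of the lattices.

Proof. For fixed `x` the function of `σ` to be averaged is a class function on `Gal(L_j/ℚ)`; all these
functions are, up to `ε / 8`, among `m` functions of the characteristic polynomials of the `Λ_{j,k}(σ)`,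
by compactness. For the centred functions a second moment bound follows from Chebotarev's theorem
(natural density) for the fields `L_i L_j`.
-/

set_option autoImplicit false

namespace Pool.Agent.Results.MP_753a9c_nt.DisjointTwists

open Filter Topology MeasureTheory Pool.Agent.D0H32.ST

variable {κ : Type} [Fintype κ] {g r : κ → ℕ}

/-- The average of `f` at the normalised `L`-polynomials of the abelian variety `∏ₖ A k ⊗ Λ k` over the
primes up to `x` which are not in `S`. -/
noncomputable def average (f : (ℕ → ℂ) → ℝ) (A : ∀ k, AbelianVariety (g k)) (frob : ℕ → GalQ)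
    (Λ : ∀ k, GalLattice (r k)) (S : Finset ℕ) (x : ℕ) : ℝ :=
  avg S (fun p => val f (angles A p) (acts Λ (frob p))) x

/-- The average over the same primes of the mean value over the Galois group of the `Λ k`. -/
noncomputable def expected (f : (ℕ → ℂ) → ℝ) (A : ∀ k, AbelianVariety (g k))
    (Λ : ∀ k, GalLattice (r k)) (S : Finset ℕ) (x : ℕ) : ℝ :=
  avg S (fun p => groupMean f Λ (angles A p)) x

theorem result (g r : κ → ℕ) (f : (ℕ → ℂ) → ℝ) (hf : Continuous f) (ε : ℝ) (hε : 0 < ε) :
    ∃ N : ℕ, ∀ (A : ∀ k, AbelianVariety (g k)) (frob : ℕ → GalQ),
      (∀ p, p.Prime → IsFrobenius p (frob p)) →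
      ∀ Λ : ℕ → ∀ k, GalLattice (r k), (∀ i j, i ≠ j → LinDisjoint (Λ i) (Λ j)) →
      ∀ S : ℕ → Finset ℕ, (∀ j k, (A k).bad ⊆ S j) → ∀ J : Finset ℕ,
      (∀ᶠ x in atTop, (J.filter fun j =>
        ε < |average f A frob (Λ j) (S j) x - expected f A (Λ j) (S j) x|).card ≤ N) ∧
      ∀ (S₀ : Finset ℕ) (μ : Measure (∀ k, Fin (2 * g k) → ℂ)), (∀ k, (A k).bad ⊆ S₀) →
        HasLaw A S₀ μ → ∀ x : ℕ → ℕ, Tendsto x atTop atTop →
        ∑ j ∈ J, lowerDensity (fun i =>
          ε < |average f A frob (Λ j) (S j) (x i) - ∫ y, groupMean f (Λ j) y ∂μ|) ≤ N :=
  main g r hf hε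

end Pool.Agent.Results.MP_753a9c_nt.DisjointTwists
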