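import Pool.Agent.D0H32.EA.M4

/-!
# Effective Sato–Tate distribution for abelian twists, with a bounded number of exceptions

Let `A₁, …, A_s` be arbitrary abelian varieties over `ℚ`, and let `Λ₁, …, Λ_s` be lattices of given
ranks with an action of `Gal(ℚ(ζ_q)/ℚ) = (ℤ/q)ˣ`, `q ≤ x ^ (1 - δ)`. The abelian variety
`B = ∏ₖ Aₖ ⊗ Λₖ` has the normalised `L`-polynomial `∏ₖ ∏ₗ det (1 - xₖₗ Λₖ(p) T)` at the good primes
`p ∤ q`, where the `xₖₗ` are the normalised Frobenius eigenvalues of `Aₖ`. Examples: the restrictions
of scalars `Res_{M/ℚ} A` from all abelian fields `M` of given degree with conductor at most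
`x ^ (1 - δ)`, quadratic twists, products `A × A'^{(d)}`.

If the field of the `Λₖ` is linearly disjoint from the field of definition of the endomorphisms of
`A = ∏ Aₖ`, then the conjecture says that the average of a continuous function `f` of the coefficients
of the normalised `L`-polynomials of `B` is the integral over `ST(A)` of the mean value over the Galois
group. We prove, for given `f`, `ε`, `δ`, dimensions and ranks, with constants `N` and `x₀` that depend
on nothing else, for ALL `Aₖ` and ALL `x ≥ x₀`:

(1) there is a set `E` of at most `N` primitive Dirichlet characters of conductor at most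
`x ^ (1 - δ)` such that for ALL systems of lattices `Λₖ` (all `q ≤ x ^ (1 - δ)`) which do not involve a
character in `E`, the sum of `f` over the good primes `p ≤ x` differs from the sum over the same primes
of the mean value over the Galois group by at most `ε π(x)`;

(2) for quadratic twists (of some of the `Aₖ`) the range is longer: there are at most `N` exceptions
among the twists by squarefree `m` with `|m| ≤ x ^ (2 - δ)`;

(3) if the Frobenius eigenvalues of the `Aₖ` have a joint distribution (if the Sato–Tate conjecture is
known for `A`, as for all elliptic curves), then for `x ≥ x₁(A)` the same holds with the predicted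
value: the integral of the mean value over the Galois group.

In particular the average over the primes `p ≤ x` is correct up to `ε` for all but `N` of the quadratic
twists with `|m| ≤ x ^ (2 - δ)`, uniformly in the abelian variety that is twisted.

Proof. For each of the finitely many possible systems `c` of characteristic polynomials the value of `f`
at `p` is a bounded function `h_c(p)`, independent of the lattices. By duality, Selberg's majorant for
the primes and the inequality of Pólya and Vinogradov (the bound of Burgess for quadratic characters)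
only a bounded number of primitive characters `χ` of conductor at most `x ^ (1 - δ)` have
`|∑ h_c(p) χ(p)| > ε' π(x)`. The mean value over the group is subtracted, and the rest is expanded in
the non-trivial characters of the group, whose order is bounded by Minkowski's theorem.
-/

set_option autoImplicit false

namespace Pool.Agent.Results.MP_753a9c_nt.EffectiveAbelianTwists

open MeasureTheory Pool.Agent.D0H32.ST Pool.Agent.D0H32.EA

variable {κ : Type} [Fintype κ]

/-- **Effective Sato–Tate distribution for abelian twists.** -/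
theorem result (g r : κ → ℕ) (f : (ℕ → ℂ) → ℝ) (hf : Continuous f) (ε δ : ℝ) (hε : 0 < ε)
    (hδ : 0 < δ) :
    ∃ N x₀ : ℕ, ∀ A : ∀ k, AbelianVariety (g k),
      -- (1) all abelian twists
      (∀ x : ℕ, x₀ ≤ x →
        ∃ E : Finset (Σ c : ℕ, DirichletCharacter ℂ c), E.card ≤ N ∧
          (∀ χ ∈ E, χ.2.IsPrimitive ∧ 1 < χ.1 ∧ (χ.1 : ℝ) ≤ (x : ℝ) ^ (1 - δ)) ∧
          ∀ q : ℕ, 0 < q → (q : ℝ) ≤ (x : ℝ) ^ (1 - δ) → ∀ Λ : AbelianLattices q r,
            (∀ χ ∈ E, ¬ Involves Λ χ) →
            |∑ p ∈ goodPrimes A q x,
              (val f (angles A p) (actPrime Λ p) - meanVal f Λ (angles A p))| ≤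
                ε * Nat.primeCounting x) ∧
      -- (2) quadratic twists of the `A k`, `k ∈ K`
      (∀ (K : Set κ) (x : ℕ), x₀ ≤ x →
        ∃ D : Finset ℤ, D.card ≤ N ∧
          ∀ m : ℤ, Squarefree m → |(m : ℝ)| ≤ (x : ℝ) ^ (2 - δ) → m ∉ D →
            |∑ p ∈ goodPrimes A (2 * m.natAbs) x,
              (lval f (twistBy K (jacobiSym m p : ℂ) (angles A p)) -
                (lval f (angles A p) + lval f (twistBy K (-1) (angles A p))) / 2)| ≤
              ε * Nat.primeCounting x) ∧
      -- (3) the predicted values
      ∀ (S₀ : Finset ℕ) (μ : Measure (∀ k, Fin (2 * g k) → ℂ)), (∀ k, (A k).bad ⊆ S₀) →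
        HasLaw A S₀ μ → ∃ x₁ : ℕ, ∀ x : ℕ, x₁ ≤ x →
        (∃ E : Finset (Σ c : ℕ, DirichletCharacter ℂ c), E.card ≤ N ∧
          (∀ χ ∈ E, χ.2.IsPrimitive ∧ 1 < χ.1 ∧ (χ.1 : ℝ) ≤ (x : ℝ) ^ (1 - δ)) ∧
          ∀ q : ℕ, 0 < q → (q : ℝ) ≤ (x : ℝ) ^ (1 - δ) → ∀ Λ : AbelianLattices q r,
            (∀ χ ∈ E, ¬ Involves Λ χ) →
            |∑ p ∈ goodPrimes A q x, val f (angles A p) (actPrime Λ p) -
              Nat.primeCounting x * ∫ y, meanVal f Λ y ∂μ| ≤ ε * Nat.primeCounting x) ∧
        ∀ K : Set κ, ∃ D : Finset ℤ, D.card ≤ N ∧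
          ∀ m : ℤ, Squarefree m → |(m : ℝ)| ≤ (x : ℝ) ^ (2 - δ) → m ∉ D →
            |∑ p ∈ goodPrimes A (2 * m.natAbs) x,
              lval f (twistBy K (jacobiSym m p : ℂ) (angles A p)) -
              Nat.primeCounting x * ∫ y, (lval f y + lval f (twistBy K (-1) y)) / 2 ∂μ| ≤
              ε * Nat.primeCounting x :=
  final g r f hf ε δ hε hδ

end Pool.Agent.Results.MP_753a9c_nt.EffectiveAbelianTwists
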