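import Pool.Agent.D0H32.AT.Gov

/-!
# The Sato–Tate prediction for almost all forms of an abelian variety, `k` at a time

Let `A` be an abelian variety over `ℚ` and `G` a finite group of automorphisms of `A` over the
algebraic closure of `ℚ`, stable under the Galois group of `ℚ`, with field of definition `M`. The forms
(twists) of `A` over `ℚ` which are given by the continuous `1`-cocycles `φ` with values in `G` have as
Tate module that of `A`, on which `σ` acts as `φ(σ) σ`, and their `L`-polynomials at the primes `p` of
good reduction are `det (1 - φ(σ) σ T)`, `σ` a Frobenius element at `p`. Examples: the quadratic,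
cubic, quartic, sextic twists of elliptic curves, the Jacobians of the curves `y ^ m = D f(x)` for given
`f`, the Jacobians of all twists of a given curve over `ℚ` of genus at least two (`G` is the group of
all automorphisms of the curve), the restrictions of scalars of `A` from the number fields of a given
degree and, more generally, `A ⊗ Λ` for lattices `Λ`. The automorphisms in `G` need not be defined over
`ℚ`.

The conjecture says: if the fields which belong to `φ₁, …, φₖ` are independent over `M` and over the
fields of definition of the endomorphisms, then the normalised `L`-polynomials of `B₁ × … × Bₖ`, `B_l`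
the form given by `φ_l`, are distributed like the tuples of the polynomials of the `h_l φ_l(σ) σ`, where
`h_l` runs through the group `H_l` of the values of `φ_l` on the Galois group of `M`.

We consider the forms `B_j` given by cocycles `φ_j`, `j = 0, 1, 2, …`, whose fields are pairwise
linearly disjoint over `M`, and prove:

(1) for `ε > 0` and every finite set `J` and all large `x`, for ALL functions `F_p` with values in
`[-1, 1]`, the sum over the good primes `p ≤ x` of

  `F_p (L_p(B_{t₁}), …, L_p(B_{tₖ})) - (mean value over h ∈ H_{t₁} × … × H_{tₖ})`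

is at most `ε π(x)` in absolute value for all `t ∈ J ^ k` with at most
`2 k ⌈8 |G|² (k + 1)² / ε²⌉ |J| ^ (k - 1)` exceptions. There is no assumption on `A` and no continuity
(total variation), and the `F_p` may depend on anything, for instance on the reduction of any other
variety;

(2) for every function `f` which is continuous in the coefficients there is `N`, depending only on `f`,
`ε`, `k`, the bound for `|G|` and the dimensions, such that for ALL abelian varieties `C` and all large
`x` the average of `f` at the normalised `L`-polynomials of `C × B_{t₁} × … × B_{tₖ}` over the good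
primes up to `x` differs by at most `ε` from the average of the mean values, for all `t ∈ J ^ k` with at
most `N |J| ^ (k - 1)` exceptions;

(3) if the averages of the mean values converge along a sequence `x₀, x₁, … → ∞` to measures `μ_t` (for
instance if the Sato–Tate conjecture holds for `C × A`; every sequence has a subsequence along which
they converge), then for large `i` the averages up to `x_i` are within `ε` of the predicted integrals
for all but `N |J| ^ (k - 1)` of the `t`, and the lower densities of the sets of the `i` for which this
is false add up to at most `N |J| ^ (k - 1)`;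

(4) a bounded number of cocycles governs ALL forms: for all `A`, `G`, `C`, every sequence
`x₀, x₁, … → ∞` and every `δ > 0` there are at most `N / δ` cocycles `ψ` such that for EVERY cocycle `φ`
with values in `G`, whose field is linearly disjoint over `M` from that of each `ψ`, and the form `B` of
`A` given by `φ` the set of the `i`, for which the average of `f` at the normalised `L`-polynomials of
`C × B` over the good primes up to `x_i` is not within `ε` of the average of the mean values, has lower
density at most `δ`; the same holds with the integral with respect to the predicted law, if the averages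
of the mean values converge to one.

Proof. The centred indicator functions of the values `φ_j(σ)`, averaged over the conjugates of the
Frobenius elements, are asymptotically orthogonal by Chebotarev's theorem, so that few of them correlate
with any given bounded weight (Bessel's inequality); the value of `F_p` is a combination of `|G|` of
them with bounded weights, since `det (1 - a σ T)` is invariant under conjugation in the semidirect
product of `G` and the Galois group. The tuples are treated one entry at a time. For (4) one takes a
maximal family of exceptional cocycles with pairwise linearly disjoint fields.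
-/

set_option autoImplicit false

namespace Pool.Agent.Results.MP_753a9c_nt.FormsByAutomorphisms

open Polynomial Filter Topology MeasureTheory Pool.Agent.D0H32.ST Pool.Agent.D0H32.AT

theorem result :
    -- (1)
    (∀ (k R : ℕ) (ε : ℝ), 0 < ε → ∀ (g : ℕ) (T : TwistData g), Nat.card T.G ≤ R →
      ∀ (φ : ℕ → Cocycle T) (B : ℕ → AbelianVariety g), (∀ j, IsTwist T (φ j) (B j)) →
      (∀ i j, i ≠ j → LinDisjoint (φ i) (φ j)) →
      ∀ frob : ℕ → GalQ, (∀ p, p.Prime → IsFrobenius p (frob p)) → ∀ J : Finset ℕ,
      ∀ᶠ x in atTop, ∀ F : ℕ → (Fin k → ℤ[X]) → ℝ, (∀ p P, |F p P| ≤ 1) →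
        ((tuples k J).filter fun t => ε * Nat.primeCounting x <
          |∑ p ∈ primesUpTo (badPrimes T B t) x,
            ((F p fun l => (B (t l)).lpoly p) - tupleMean φ (frob p) t (F p))|).card ≤
          2 * k * ⌈8 * (R : ℝ) ^ 2 * (k + 1) ^ 2 / ε ^ 2⌉₊ * J.card ^ (k - 1)) ∧
    -- (2), (3)
    (∀ (g c k R : ℕ) (f : (ℕ → ℂ) → ℝ), Continuous f → ∀ ε : ℝ, 0 < ε → ∃ N : ℕ,
      ∀ T : TwistData g, Nat.card T.G ≤ R →
      ∀ (φ : ℕ → Cocycle T) (B : ℕ → AbelianVariety g), (∀ j, IsTwist T (φ j) (B j)) →
      (∀ i j, i ≠ j → LinDisjoint (φ i) (φ j)) →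
      ∀ frob : ℕ → GalQ, (∀ p, p.Prime → IsFrobenius p (frob p)) → ∀ J : Finset ℕ,
      ∀ C : AbelianVariety c,
      (∀ᶠ x in atTop, ((tuples k J).filter fun t =>
        ε < |average f T C B t x - expected f C B φ frob t x|).card ≤ N * J.card ^ (k - 1)) ∧
      ∀ x : ℕ → ℕ, Tendsto x atTop atTop → ∀ μ : (Fin k → ℕ) → Measure (ℕ → ℂ),
      (∀ t ∈ tuples k J, Predicts C B φ frob t x (μ t)) →
      (∀ᶠ i in atTop, ((tuples k J).filter fun t =>
        ε < |average f T C B t (x i) - ∫ a, f a ∂μ t|).card ≤ N * J.card ^ (k - 1)) ∧
      ∑ t ∈ tuples k J, lowerDensity (fun i => ε < |average f T C B t (x i) - ∫ a, f a ∂μ t|) ≤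
        (N * J.card ^ (k - 1) : ℕ)) ∧
    -- (4)
    ∀ (g c R : ℕ) (f : (ℕ → ℂ) → ℝ), Continuous f → ∀ ε : ℝ, 0 < ε → ∃ N : ℕ,
      ∀ T : TwistData g, Nat.card T.G ≤ R →
      ∀ frob : ℕ → GalQ, (∀ p, p.Prime → IsFrobenius p (frob p)) →
      ∀ (C : AbelianVariety c) (x : ℕ → ℕ), Tendsto x atTop atTop → ∀ δ : ℝ, 0 < δ →
      ∃ (m : ℕ) (ψ : Fin m → Cocycle T), m * δ ≤ N ∧
        ∀ (φ : Cocycle T) (B : AbelianVariety g), IsTwist T φ B → (∀ i, LinDisjoint φ (ψ i)) →
        lowerDensity (fun i =>
          ε < |averageOne f T C B (x i) - expectedOne f C B φ frob (x i)|) ≤ δ ∧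
        ∀ μ : Measure (ℕ → ℂ),
          Predicts C (fun _ => B) (fun _ => φ) frob (fun _ : Fin 1 => 0) x μ →
          lowerDensity (fun i => ε < |averageOne f T C B (x i) - ∫ a, f a ∂μ|) ≤ δ := by
  classical
  refine ⟨fun k R ε hε g T hR φ B hB hdis frob hfrob J => ?_, fun g c k R f hf ε hε => ?_,
    fun g c R f hf ε hε => part4 g c R hf hε⟩
  · have hN : NN k R ε = 2 * k * ⌈8 * (R : ℝ) ^ 2 * (k + 1) ^ 2 / ε ^ 2⌉₊ := by
      unfold NN bt
      have e : (R : ℝ) ^ 2 * (1 ^ 2 + 1) / (ε / (2 * (k + 1))) ^ 2 =
          8 * (R : ℝ) ^ 2 * (k + 1) ^ 2 / ε ^ 2 := by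
        have h1 : (k : ℝ) + 1 ≠ 0 := by positivity
        field_simp
        ring
      rw [e]
      ring
    rw [← hN]
    filter_upwards [part1 hR φ hdis frob hfrob J k hε (badPrimes T B)] with x hx F hF
    refine (Finset.card_le_card ?_).trans (hx F hF)
    intro t ht
    rw [Finset.mem_filter] at ht ⊢
    refine ⟨ht.1, ?_⟩
    refine ht.2.trans_le (le_of_eq ?_)
    congr 1
    refine Finset.sum_congr rfl fun p hp => ?_
    rw [primesUpTo, Finset.mem_filter] at hp
    obtain ⟨-, hp1, hp2⟩ := hp
    simp only [Finset.mem_union, badPrimes, Finset.mem_biUnion, Finset.mem_univ, true_and,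
      not_or, not_exists] at hp2
    have e : ∀ l, (B (t l)).lpoly p = T.lpoly ((φ (t l)).toFun (frob p)) (frob p) := fun l =>
      hB (t l) p hp1 hp2.1 (hp2.2 l) _ (hfrob p hp1)
    unfold tdev
    simp only [e]
  · obtain ⟨N, hN⟩ := part3 g c k R hf hε
    refine ⟨N, fun T hR φ B hB hdis frob hfrob J C => ?_⟩
    have h := hN T hR φ B hB hdis frob hfrob J C
    refine ⟨?_, fun x hx μ hμ => ⟨?_, ?_⟩⟩
    · convert h.1
    · convert (h.2 x hx μ hμ).1
    · exact (h.2 x hx μ hμ).2

end Pool.Agent.Results.MP_753a9c_nt.FormsByAutomorphisms
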